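import Pool.Agent.V11250.WordAlg

/-!
# MP_c850b7_lc, Q1: answer no

Two finitely generated (even one generated) isotypic algebras which are not isomorphic. The
definitions `InVariety`, `IsIsotypic`, `FinGen` are in `Pool.Agent.V11250.Isotypic`.
-/

set_option autoImplicit false

namespace Pool.Agent.Results.MP_c850b7_lc.IsotypicNotIso

open FirstOrder FirstOrder.Language Pool.Agent.V11250.Isotypic Pool.Agent.V11250.WordAlg

theorem isotypic : IsIsotypic LA (Alg (NB false)) (Alg (NB true)) := by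
  intro m
  refine ⟨fun a => ⟨upE true ∘ a, fun φ => ?_⟩, fun b => ⟨upE false ∘ b, fun φ => ?_⟩⟩
  · exact ((upE true).map_formula φ a).symm
  · exact (upE false).map_formula φ b

/-- The elements which are not in the image of an operation `s`. -/
def Bare {δ : Bool} (x : Alg (NB δ)) : Prop := ∀ (n : ℕ) (b : Bool) (y : Alg (NB δ)), ss n b y ≠ x

theorem bare_iff {δ : Bool} (x : Alg (NB δ)) : Bare x ↔ x.w = [] := by
  constructor
  · intro h
    obtain ⟨w, i⟩ := x
    cases w with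
    | nil => rfl
    | cons a w => exact absurd rfl (h a.1 a.2 ⟨w, i⟩)
  · intro h n b y hy
    rw [← hy] at h
    exact absurd h (by simp [ss])

theorem not_iso : IsEmpty (Alg (NB false) ≃[LA] Alg (NB true)) := by
  refine ⟨fun g => ?_⟩
  have ht : ∀ x, g (tt x) = tt (g x) := fun x => g.map_fun (Fn.t : LA.Functions 1) (fun _ => x)
  have hc : ∀ x, g (cc x) = cc (g x) := fun x => g.map_fun (Fn.c : LA.Functions 1) (fun _ => x)
  have hs : ∀ n b x, g (ss n b x) = ss n b (g x) :=
    fun n b x => g.map_fun (Fn.s n b : LA.Functions 1) (fun _ => x)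
  have hbare : ∀ x, Bare x ↔ Bare (g x) := by
    intro x
    constructor
    · intro h n b y hy
      apply h n b (g.symm y)
      apply g.injective
      rw [hs, FirstOrder.Language.Equiv.apply_symm_apply, hy]
    · intro h n b y hy
      apply h n b (g y)
      rw [← hs, hy]
  -- the image of the generator is the generator
  have h0 : g ⟨[], (0 : ℕ)⟩ = ⟨[], (0 : ℕ)⟩ := by
    have hb : Bare (g ⟨[], (0 : ℕ)⟩) := (hbare _).1 ((bare_iff _).2 rfl)
    rw [bare_iff] at hb
    obtain ⟨w, k, hwk⟩ : ∃ w k, g ⟨[], (0 : ℕ)⟩ = ⟨w, k⟩ := ⟨_, _, rfl⟩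
    rw [hwk] at hb ⊢
    simp only at hb
    subst hb
    rcases (show k = (0 : ℕ) ∨ ∃ l : ℕ, k = (l + 1 : ℕ) by
      rcases Nat.eq_zero_or_pos k with h | h
      · exact Or.inl h
      · exact Or.inr ⟨k - 1, (Nat.sub_add_cancel h).symm⟩) with rfl | ⟨l, rfl⟩
    · rfl
    · exfalso
      -- a bare preimage of the image
      obtain ⟨z, hz⟩ := g.surjective ⟨[], (l : ℕ)⟩
      have hzb : Bare z := by
        rw [hbare, hz, bare_iff]
      rw [bare_iff] at hzb
      have h1 : g (tt z) = g ⟨[], (0 : ℕ)⟩ := by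
        rw [ht, hz, hwk]
        rfl
      have h2 := g.injective h1
      obtain ⟨w', k'⟩ := z
      simp only at hzb
      subst hzb
      have h3 : (⟨[], (k' + 1 : ℕ)⟩ : Alg (NB false)) = ⟨[], (0 : ℕ)⟩ := h2
      have h4 : (k' + 1 : ℕ) = 0 := (Alg.mk.inj h3).2
      exact absurd h4 (Nat.succ_ne_zero k')
  -- compare the operation `c`
  have h1 : g (cc ⟨[], (0 : ℕ)⟩) = cc (⟨[], (0 : ℕ)⟩ : Alg (NB true)) := by rw [hc, h0]
  have h2 : cc (⟨[], (0 : ℕ)⟩ : Alg (NB false)) = tt ⟨[], (0 : ℕ)⟩ := by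
    simp [cc, colr]
  have h3 : cc (⟨[], (0 : ℕ)⟩ : Alg (NB true)) = tt (tt ⟨[], (0 : ℕ)⟩) := by
    simp [cc, colr]
  rw [h2, h3, ht, h0] at h1
  have h4 : (⟨[], (1 : ℕ)⟩ : Alg (NB true)) = ⟨[], (2 : ℕ)⟩ := h1
  have h5 : (1 : ℕ) = 2 := (Alg.mk.inj h4).2
  omega

/-- There are a variety and two finitely generated algebras in it which are isotypic but not
isomorphic. -/
theorem result : ∃ (L : FirstOrder.Language.{0, 0}) (_ : L.IsAlgebraic)
    (E : Set (Σ n : ℕ, L.Term (Fin n) × L.Term (Fin n)))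
    (H₁ H₂ : Type) (_ : L.Structure H₁) (_ : L.Structure H₂),
    InVariety L E H₁ ∧ InVariety L E H₂ ∧ FinGen L H₁ ∧ FinGen L H₂ ∧
    IsIsotypic L H₁ H₂ ∧ IsEmpty (H₁ ≃[L] H₂) :=
  ⟨LA, inferInstance, ∅, Alg (NB false), Alg (NB true), inferInstance, inferInstance,
    fun e he => absurd he (Set.notMem_empty e), fun e he => absurd he (Set.notMem_empty e),
    finGen false, finGen true, isotypic, not_iso⟩

end Pool.Agent.Results.MP_c850b7_lc.IsotypicNotIso
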